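import Pool.Agent.X246.SRJ.Memb
import Pool.Agent.X246.SRJ.Time

/-!
# Surjectivity of integer polynomial maps `ℝⁿ → ℝᵐ` is `∀∃ℝ`-complete

**Hardness.** A sentence `∀ x ∃ y, φ(x, y)` is translated into constraints `v = 1`, `v + v' = v''`,
`v v' = v''` in the variables `x`, `y` and further existentially quantified variables. Let
`P(x, y) ≥ 0` be the sum of the squares of the defects of these constraints; the sentence says that
for every `x` there is `y` with `P(x, y) = 0`. The map

  `(x, y, p, q) ↦ (x, u, u p² - q)`,  where `u = p q - P(x, y)`,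

of degree at most six is onto if and only if the sentence is true. If the value `(x, 0, 0)` is
taken at `(x, y, p, q)` then `q = 0`, hence `P(x, y) = 0`. Conversely let `P(x, y) = 0` and let
`(x, u, v)` be given. If `u = 0` take `p = 0`, `q = -v`. Otherwise let `p` be a real root of the
cubic polynomial `u p³ - v p - u` and `q = u p² - v`; then `p q = u`.

**Membership.** Surjectivity is the sentence `∀ y ∃ x, f(x) = y`, where the powers of the
variables, whose exponents are given in binary, are computed by repeated squaring.
-/

set_option autoImplicit false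

namespace Pool.Agent.Results.MP_e38cae_lc.SurjectivityComplete

open Pool.Agent.NPC Pool.Agent.NPC.ER Pool.Agent.NPC.H612 Pool.Agent.NPC.X246SRJ

/-- The surjectivity problem for integer polynomial maps `ℝⁿ → ℝᵐ` is `∀∃ℝ`-complete. Moreover
every problem of `∀∃ℝ` reduces to it by a polynomial-time reduction whose values are correctly
written polynomial maps of degree at most six. -/
theorem result : AERComplete (lang FullSurjectivity) ∧
    ∀ L : Set (List Bool), InAER L → ∃ F : List Bool → ℕ × List PolyData,
      PolyTime (fun w => bits (F w)) ∧ ∀ w,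
        ((∀ p ∈ (F w).2, PolyData.Valid (F w).1 p) ∧ DegreeLE 6 (F w).2) ∧
          (w ∈ L ↔ FullSurjectivity (F w)) := by
  have h := hard_of_poly (P := FullSurjectivity)
    (Q := fun a => (∀ p ∈ a.2, PolyData.Valid a.1 p) ∧ DegreeLE 6 a.2) poly_inst aer_iff_inst
    fun p => ⟨inst_valid p, inst_degree p⟩
  refine ⟨⟨fullSurjectivity_inAER, aerHard_of fun L hL => ?_⟩, h⟩
  obtain ⟨G, h1, h2⟩ := h L hL
  exact ⟨G, h1, fun w => (h2 w).2⟩

end Pool.Agent.Results.MP_e38cae_lc.SurjectivityComplete
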